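import Mathlib

/-!
# The Hardy-Littlewood function of a set of natural numbers and shifted chains

`cnt p x` is the number of the `n ≤ x` with `p n`, and `rho p y` is the limsup of the number of the
elements of the windows `(x, x + y]`. The chain argument of helper206 (`Pool.Agent.H206R2.RhoChain`,
for the primes and without shifts) is carried out for arbitrary sets, and with shifts which are
bounded.
-/

set_option autoImplicit false

namespace Pool.Agent.V8H16.RS

open Filter

variable (p : ℕ → Prop) [DecidablePred p]

/-- the number of the `n ≤ x` with the property `p` -/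
def cnt (x : ℕ) : ℕ := Nat.count p (x + 1)

/-- the largest number of elements in infinitely many windows `(x, x + y]` -/
noncomputable def rho (y : ℕ) : ℕ :=
  limsup (fun x : ℕ => cnt p (x + y) - cnt p x) atTop

/-- the window `(u, u + b]` contains exactly `rho p b` elements -/
def Ext (b u : ℕ) : Prop := cnt p (u + b) = cnt p u + rho p b

variable {p}

theorem cnt_succ (x : ℕ) : cnt p (x + 1) = cnt p x + if p (x + 1) then 1 else 0 := by
  unfold cnt
  rw [Nat.count_succ]

theorem cnt_mono {a b : ℕ} (h : a ≤ b) : cnt p a ≤ cnt p b :=
  Nat.count_monotone p (by omega)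

theorem cnt_add_le (x y : ℕ) : cnt p (x + y) ≤ cnt p x + y := by
  induction y with
  | zero => simp
  | succ n ih =>
    rw [← add_assoc, cnt_succ]
    split_ifs <;> omega

theorem rho_upper (y : ℕ) : ∀ᶠ x in atTop, cnt p (x + y) ≤ cnt p x + rho p y := by
  have hb : IsBoundedUnder (· ≤ ·) atTop (fun x : ℕ => cnt p (x + y) - cnt p x) :=
    ⟨y, by
      rw [eventually_map]
      exact Eventually.of_forall fun x => by
        have := cnt_add_le (p := p) x y
        show cnt p (x + y) - cnt p x ≤ y
        omega⟩
  have h : ∀ᶠ x in atTop, cnt p (x + y) - cnt p x < rho p y + 1 := by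
    apply eventually_lt_of_limsup_lt _ hb
    exact Nat.lt_succ_self _
  filter_upwards [h] with x hx
  omega

theorem rho_attained (y : ℕ) : ∃ᶠ x in atTop, Ext p y x := by
  have hcb : IsCoboundedUnder (· ≤ ·) atTop (fun x : ℕ => cnt p (x + y) - cnt p x) := by
    apply IsBoundedUnder.isCoboundedUnder_le
    exact ⟨0, by
      rw [eventually_map]
      exact Eventually.of_forall fun x => Nat.zero_le _⟩
  have h1 : ∃ᶠ x in atTop, cnt p x + rho p y ≤ cnt p (x + y) := by
    rcases Nat.eq_zero_or_pos (rho p y) with h0 | h0
    · refine (Eventually.of_forall fun x => ?_).frequently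
      rw [h0]
      exact cnt_mono (Nat.le_add_right _ _)
    · have h : ∃ᶠ x in atTop, rho p y - 1 < cnt p (x + y) - cnt p x := by
        apply frequently_lt_of_lt_limsup hcb
        show rho p y - 1 < rho p y
        omega
      exact h.mono fun x hx => by omega
  exact (h1.and_eventually (rho_upper (p := p) y)).mono fun x hx => le_antisymm hx.2 hx.1

theorem rho_ge {y m : ℕ} (h : ∃ᶠ x in atTop, cnt p x + m ≤ cnt p (x + y)) : m ≤ rho p y := by
  obtain ⟨x, hx1, hx2⟩ := (h.and_eventually (rho_upper (p := p) y)).exists
  omega

theorem rho_mono {a b : ℕ} (h : a ≤ b) : rho p a ≤ rho p b := by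
  obtain ⟨x, hx1, hx2⟩ := ((rho_attained (p := p) a).and_eventually (rho_upper (p := p) b)).exists
  have := cnt_mono (p := p) (show x + a ≤ x + b by omega)
  unfold Ext at hx1
  omega

theorem rho_succ_le (a : ℕ) : rho p (a + 1) ≤ rho p a + 1 := by
  obtain ⟨x, hx1, hx2⟩ := ((rho_attained (p := p) (a + 1)).and_eventually (rho_upper (p := p) a)).exists
  have := cnt_add_le (p := p) (x + a) 1
  unfold Ext at hx1
  rw [← add_assoc] at hx1
  omega

/-- Chain lemma: if for every `b ≥ a` there are infinitely many extremal windows `(u + K, u + K + b]`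
such that `rho` is additive for `u + i` and `b`, for some `i ≤ 2 K`, then there is a sequence `f` such
that extremal windows of length `a` start near the differences `f j - f i`, beyond `B`. -/
theorem chain (a K B : ℕ)
    (H : ∀ b, a ≤ b → ∃ᶠ u in atTop, Ext p b (u + K) ∧
      ∃ i, i ≤ 2 * K ∧ rho p (u + i) + rho p b ≤ rho p (u + i + b)) (n : ℕ) :
    ∃ f : ℕ → ℕ, f 0 = a ∧ (∀ i, i < n → f i < f (i + 1)) ∧
      (∀ i j, i < j → j ≤ n → ∃ s w, s ≤ 2 * K ∧ B ≤ w ∧ w + s = f j - f i + K ∧ Ext p a w) ∧
      (∀ᶠ x in atTop, Ext p (f n) x → ∀ i, i ≤ n → Ext p a (x + (f n - f i))) := by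
  induction n with
  | zero =>
    refine ⟨fun _ => a, rfl, ?_, ?_, ?_⟩
    · intro i hi; omega
    · intro i j h1 h2; omega
    · refine Eventually.of_forall fun x hx i hi => ?_
      simpa using hx
  | succ n ih =>
    obtain ⟨f, h0, hinc, hpair, hev⟩ := ih
    have hmono : ∀ i, i ≤ n → a ≤ f i := by
      intro i
      induction i with
      | zero => intro _; rw [h0]
      | succ k ihk =>
        intro hk
        have := hinc k (by omega)
        have := ihk (by omega)
        omega
    have hle : ∀ i, i ≤ n → f i ≤ f n := by
      intro i hi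
      obtain ⟨d, rfl⟩ := Nat.exists_eq_add_of_le hi
      clear hi
      have : ∀ e, e ≤ d → f i ≤ f (i + e) := by
        intro e
        induction e with
        | zero => intro _; rfl
        | succ k ihk =>
          intro hk
          have h1 := ihk (by omega)
          have h2 := hinc (i + k) (by omega)
          rw [← add_assoc]
          omega
      exact this d le_rfl
    have hevK : ∀ᶠ u in atTop, Ext p (f n) (u + K) → ∀ i, i ≤ n → Ext p a (u + K + (f n - f i)) :=
      (tendsto_add_atTop_nat K).eventually hev
    obtain ⟨u, ⟨hext, s0, hs0, hadd⟩, hevt, htpos⟩ :=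
      ((H (f n) (hmono n le_rfl)).and_eventually
        (hevK.and (eventually_ge_atTop (max 1 B)))).exists
    have hu1 : 1 ≤ u := le_trans (le_max_left _ _) htpos
    have huB : B ≤ u := le_trans (le_max_right _ _) htpos
    refine ⟨fun i => if i ≤ n then f i else u + s0 + f n, ?_, ?_, ?_, ?_⟩
    · simp [h0]
    · intro i hi
      rcases Nat.lt_or_ge i n with h | h
      · have h1 : i ≤ n := by omega
        have h2 : i + 1 ≤ n := by omega
        simp only [h1, h2, if_true]
        exact hinc i h
      · have : i = n := by omega
        subst this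
        have h2 : ¬ (i + 1 ≤ i) := by omega
        simp only [le_refl, if_true, h2, if_false]
        omega
    · intro i j hij hj
      rcases Nat.lt_or_ge n j with h | h
      · have h1 : i ≤ n := by omega
        have h2 : ¬ (j ≤ n) := by omega
        simp only [h1, h2, if_true, if_false]
        have h3 := hevt hext i h1
        have h4 := hle i h1
        exact ⟨s0, u + K + (f n - f i), hs0, by omega, by omega, h3⟩
      · have h1 : i ≤ n := by omega
        simp only [h1, h, if_true]
        exact hpair i j hij h
    · have h2 : ¬ (n + 1 ≤ n) := by omega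
      simp only [h2, if_false]
      obtain ⟨X1, hX1⟩ := eventually_atTop.1 hev
      obtain ⟨X2, hX2⟩ := eventually_atTop.1 (rho_upper (p := p) (u + s0))
      obtain ⟨X3, hX3⟩ := eventually_atTop.1 (rho_upper (p := p) (f n))
      refine eventually_atTop.2 ⟨max X1 (max X2 X3), fun x hx hE i hi => ?_⟩
      have hx1 : X1 ≤ x := le_trans (le_max_left _ _) hx
      have hx2 : X2 ≤ x := le_trans (le_trans (le_max_left _ _) (le_max_right _ _)) hx
      have hx3 : X3 ≤ x := le_trans (le_trans (le_max_right _ _) (le_max_right _ _)) hx
      have hE' : cnt p (x + (u + s0 + f n)) = cnt p x + rho p (u + s0 + f n) := hE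
      have hpre : Ext p (f n) x := by
        have a1 := hX3 x hx3
        have a2 := hX2 (x + f n) (by omega)
        rw [show x + f n + (u + s0) = x + (u + s0 + f n) by ring] at a2
        unfold Ext
        omega
      have hsuf : Ext p (f n) (x + (u + s0)) := by
        have a1 := hX3 (x + (u + s0)) (by omega)
        have a2 := hX2 x hx2
        rw [show x + (u + s0) + f n = x + (u + s0 + f n) by ring] at a1
        unfold Ext
        rw [show x + (u + s0) + f n = x + (u + s0 + f n) by ring]
        omega
      rcases Nat.lt_or_ge n i with h | h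
      · have h3 : ¬ (i ≤ n) := by omega
        simp only [h3, if_false]
        have := hX1 x hx1 hpre n le_rfl
        simpa using this
      · simp only [h, if_true]
        have h3 := hX1 (x + (u + s0)) (by omega) hsuf i h
        have h5 := hle i h
        have h4 : x + (u + s0 + f n - f i) = x + (u + s0) + (f n - f i) := by
          omega
        rw [h4]
        exact h3

end Pool.Agent.V8H16.RS
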