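import Mathlib
import Pool.Agent.V8H16.RS.Chain

/-!
# Across extremal windows all bounded translates of the gap increase
-/

set_option autoImplicit false

namespace Pool.Agent.V8H16.RS

open Filter

variable {p : ℕ → Prop} [DecidablePred p]

theorem cnt_add (w a : ℕ) : cnt p (w + a) = cnt p w + ((Finset.Ioc w (w + a)).filter p).card := by
  induction a with
  | zero => simp
  | succ a ih =>
    have h1 : Finset.Ioc w (w + (a + 1)) = insert (w + a + 1) (Finset.Ioc w (w + a)) := by
      ext n
      simp only [Finset.mem_Ioc, Finset.mem_insert]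
      omega
    rw [h1, Finset.filter_insert, ← add_assoc, cnt_succ, ih]
    split_ifs with h
    · rw [Finset.card_insert_of_notMem (by simp), add_assoc]
    · rw [add_zero]

/-- each prime number divides only finitely many elements -/
def Sieved (p : ℕ → Prop) : Prop := ∀ q : ℕ, q.Prime → {n | p n ∧ q ∣ n}.Finite

omit [DecidablePred p] in
theorem exists_bound (hp : Sieved p) (m : ℕ) :
    ∃ B, ∀ n, B < n → p n → ∀ q, q.Prime → q ≤ m → ¬ q ∣ n := by
  have h1 : (⋃ q ∈ (Finset.range (m + 1)).filter Nat.Prime, {n | p n ∧ q ∣ n}).Finite := by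
    refine Set.Finite.biUnion (Finset.finite_toSet _) fun q hq => ?_
    rw [Finset.mem_coe, Finset.mem_filter] at hq
    exact hp q hq.2
  obtain ⟨B, hB⟩ := h1.bddAbove
  refine ⟨B, fun n hn hpn q hq hqm hd => ?_⟩
  have h2 : n ∈ ⋃ q ∈ (Finset.range (m + 1)).filter Nat.Prime, {n | p n ∧ q ∣ n} := by
    simp only [Set.mem_iUnion]
    exact ⟨q, by simp [hq]; omega, hpn, hd⟩
  have := hB h2
  omega

/-- If `rho` is additive near infinitely many extremal windows of every length `≥ a`, then
`rho a ≤ 2`. -/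
theorem rho_le_two (hp : Sieved p) (a K : ℕ)
    (H : ∀ b, a ≤ b → ∃ᶠ u in atTop, Ext p b (u + K) ∧
      ∃ i, i ≤ 2 * K ∧ rho p (u + i) + rho p b ≤ rho p (u + i + b)) : rho p a ≤ 2 := by
  obtain ⟨B, hB⟩ := exists_bound hp (a + K + 2)
  set M := (a + K + 2).factorial with hM
  have hMpos : 0 < M := Nat.factorial_pos _
  obtain ⟨f, h0, hinc, hpair, -⟩ := chain a K B H M
  obtain ⟨i, hi, j, hj, hij, hmod⟩ : ∃ i ∈ Finset.range (M + 1), ∃ j ∈ Finset.range (M + 1),
      i ≠ j ∧ f i % M = f j % M := by
    apply Finset.exists_ne_map_eq_of_card_lt_of_maps_to (t := Finset.range M)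
    · simp
    · intro i _
      simp only [Finset.coe_range, Set.mem_Iio]
      exact Nat.mod_lt _ hMpos
  have key : ∀ i j, i < j → j ≤ M → f i % M = f j % M → rho p a ≤ 2 := by
    intro i j hij hj hmod
    have hlt : f i < f j := by
      obtain ⟨d, hd⟩ := Nat.exists_eq_add_of_lt hij
      have : ∀ e, i + e + 1 ≤ M → f i < f (i + e + 1) := by
        intro e
        induction e with
        | zero => intro h; exact hinc i (by omega)
        | succ k ihk =>
          intro h
          have h1 := ihk (by omega)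
          have h2 := hinc (i + k + 1) (by omega)
          have : i + (k + 1) + 1 = i + k + 1 + 1 := by ring
          rw [this]
          omega
      rw [hd]
      exact this d (by omega)
    have hdvd : M ∣ f j - f i := (Nat.modEq_iff_dvd' hlt.le).1 hmod
    obtain ⟨s, w, hs, hw, hws, hE⟩ := hpair i j hij hj
    set d := f j - f i with hd
    have hdpos : 0 < d := by omega
    have hq : ∀ q, q.Prime → q ≤ a + K + 2 → q ∣ d := fun q hq1 hq2 =>
      (Nat.dvd_factorial hq1.pos hq2).trans hdvd
    have hcl : ∀ n, w < n → n ≤ w + a → p n → n = d - 1 ∨ n = d + 1 := by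
      intro n hn1 hn2 hpn
      have hno := hB n (by omega) hpn
      rcases lt_trichotomy n d with h | h | h
      · left
        by_contra hne
        have he : d - n ≠ 1 := by omega
        have hq1 := Nat.minFac_prime he
        have hq2 : (d - n).minFac ≤ d - n := Nat.minFac_le (by omega)
        refine hno _ hq1 (by omega) ?_
        have h3 : (d - n).minFac ∣ d := hq _ hq1 (by omega)
        have h4 : (d - n).minFac ∣ d - n := Nat.minFac_dvd _
        have h6 := Nat.dvd_sub h3 h4
        rwa [show d - (d - n) = n by omega] at h6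
      · exfalso
        exact hno 2 Nat.prime_two (by omega) (h ▸ hq 2 Nat.prime_two (by omega))
      · right
        by_contra hne
        have he : n - d ≠ 1 := by omega
        have hq1 := Nat.minFac_prime he
        have hq2 : (n - d).minFac ≤ n - d := Nat.minFac_le (by omega)
        refine hno _ hq1 (by omega) ?_
        have h3 : (n - d).minFac ∣ d := hq _ hq1 (by omega)
        have h4 : (n - d).minFac ∣ n - d := Nat.minFac_dvd _
        have h6 := dvd_add h3 h4
        rwa [show d + (n - d) = n by omega] at h6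
    have h1 : ((Finset.Ioc w (w + a)).filter p).card ≤ 2 := by
      refine (Finset.card_le_card (t := {d - 1, d + 1}) fun n hn => ?_).trans Finset.card_le_two
      rw [Finset.mem_filter, Finset.mem_Ioc] at hn
      rw [Finset.mem_insert, Finset.mem_singleton]
      exact hcl n hn.1.1 hn.1.2 hn.2
    have h2 := cnt_add (p := p) w a
    unfold Ext at hE
    omega
  simp only [Finset.mem_range] at hi hj
  rcases Nat.lt_or_ge i j with h | h
  · exact key i j h (by omega) hmod
  · exact key j i (by omega) (by omega) hmod.symm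

theorem strict (hp : Sieved p) (h3 : ∃ a, 3 ≤ rho p a) (K B : ℕ) : ∃ b, B ≤ b ∧
    ∀ᶠ u in atTop, Ext p b (u + K) → ∀ i, i ≤ 2 * K →
      rho p (u + i + b) + 1 ≤ rho p (u + i) + rho p b := by
  obtain ⟨a, ha⟩ := h3
  by_contra hcon
  have H : ∀ b, max a B ≤ b → ∃ᶠ u in atTop, Ext p b (u + K) ∧
      ∃ i, i ≤ 2 * K ∧ rho p (u + i) + rho p b ≤ rho p (u + i + b) := by
    intro b hb hn
    apply hcon
    refine ⟨b, le_trans (le_max_right _ _) hb, ?_⟩
    filter_upwards [hn] with u hu hE i hi
    by_contra h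
    exact hu ⟨hE, i, hi, by omega⟩
  have h1 := rho_le_two hp _ K H
  have h2 := rho_mono (p := p) (le_max_left a B)
  omega

/-- The strict inequality for all bounded translates. -/
theorem strictZ (hp : Sieved p) (h3 : ∃ a, 3 ≤ rho p a) (K B : ℕ) : ∃ b, B ≤ b ∧
    ∀ᶠ u : ℕ in atTop, Ext p b u → ∀ j : ℤ, |j| ≤ K →
      rho p (((u : ℤ) + j).toNat + b) + 1 ≤ rho p ((u : ℤ) + j).toNat + rho p b := by
  obtain ⟨b, hb, hev⟩ := strict hp h3 K B
  refine ⟨b, hb, ?_⟩
  obtain ⟨X, hX⟩ := eventually_atTop.1 hev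
  refine eventually_atTop.2 ⟨X + K, fun u hu hE j hj => ?_⟩
  have hj' := abs_le.1 hj
  have e1 : u - K + K = u := by omega
  have h1 := hX (u - K) (by omega) (by rw [e1]; exact hE) (j + K).toNat (by omega)
  have e2 : u - K + (j + K).toNat = ((u : ℤ) + j).toNat := by omega
  rw [e2] at h1
  exact h1

/-- All late extremal windows of suitable lengths contain, for all bounded translations, elements
whose translate is not a jump of `rho`. -/
theorem jumps (hp : Sieved p) (h3 : ∃ a, 3 ≤ rho p a) (K B : ℕ) : ∃ b, B ≤ b ∧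
    ∀ᶠ u : ℕ in atTop, Ext p b u → ∀ j : ℤ, |j| ≤ K →
      rho p (((u : ℤ) + j).toNat + b) + 1 ≤ rho p ((u : ℤ) + j).toNat + rho p b ∧
      ∃ q : ℕ, u < q ∧ q ≤ u + b ∧ p q ∧
        rho p ((q : ℤ) + j).toNat = rho p ((q : ℤ) + j - 1).toNat := by
  obtain ⟨b, hB, hev⟩ := strictZ hp h3 K B
  refine ⟨b, hB, ?_⟩
  filter_upwards [hev, eventually_ge_atTop (K + 1)] with u hu huN hE j hj
  have h1 := hu hE j hj
  refine ⟨h1, ?_⟩
  have hj' := abs_le.1 hj
  by_contra hcon
  push Not at hcon
  have h2 : ∀ m, m ≤ b → rho p ((u : ℤ) + j).toNat + cnt p (u + m) ≤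
      rho p (((u : ℤ) + j).toNat + m) + cnt p u := by
    intro m
    induction m with
    | zero => intro _; simp
    | succ m ih =>
      intro hm
      have h3 := ih (by omega)
      have h4 := cnt_succ (p := p) (u + m)
      have h5 : rho p (((u : ℤ) + j).toNat + m) ≤ rho p (((u : ℤ) + j).toNat + (m + 1)) :=
        rho_mono (by omega)
      rw [← add_assoc u m 1, h4]
      split_ifs with hq
      · have h6 := hcon (u + m + 1) (by omega) (by omega) hq
        have e1 : (((u + m + 1 : ℕ) : ℤ) + j).toNat = ((u : ℤ) + j).toNat + (m + 1) := by omega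
        have e2 : (((u + m + 1 : ℕ) : ℤ) + j - 1).toNat = ((u : ℤ) + j).toNat + m := by omega
        rw [e1, e2] at h6
        omega
      · omega
  have h7 := h2 b le_rfl
  unfold Ext at hE
  omega

/-- The difference of a translate of the counting function and of `rho` has no finite limit. -/
theorem no_limit (hp : Sieved p) (h3 : ∃ a, 3 ≤ rho p a) (k : ℤ) :
    ¬ ∃ L : ℝ, Tendsto (fun y : ℕ => (cnt p ((y : ℤ) + k).toNat : ℝ) - rho p y) atTop (nhds L) := by
  rintro ⟨L, hL⟩
  obtain ⟨b, -, hb⟩ := strictZ hp h3 k.natAbs 0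
  have hL2 : Tendsto (fun y : ℕ => (cnt p (((y + b : ℕ) : ℤ) + k).toNat : ℝ) - rho p (y + b)) atTop
      (nhds L) := hL.comp (tendsto_add_atTop_nat b)
  have hd := hL2.sub hL
  rw [sub_self] at hd
  have h1 := hd.eventually (gt_mem_nhds one_pos)
  obtain ⟨X, hX⟩ := eventually_atTop.1 h1
  obtain ⟨u, hE, hu, huX⟩ := ((rho_attained (p := p) b).and_eventually
    (hb.and (eventually_ge_atTop (X + k.natAbs)))).exists
  have h2 := hu hE (-k) (by rw [abs_neg, Int.abs_eq_natAbs])
  have h4 := hX ((u : ℤ) + -k).toNat (by omega)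
  have e1 : ((((u : ℤ) + -k).toNat : ℤ) + k).toNat = u := by omega
  have e2 : (((((u : ℤ) + -k).toNat + b : ℕ) : ℤ) + k).toNat = u + b := by omega
  rw [e1, e2] at h4
  unfold Ext at hE
  rw [hE] at h4
  have h5 : ((rho p (((u : ℤ) + -k).toNat + b) : ℕ) : ℝ) + 1 ≤
      rho p ((u : ℤ) + -k).toNat + rho p b := by exact_mod_cast h2
  push_cast at h4
  linarith

end Pool.Agent.V8H16.RS
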