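import Mathlib
import Pool.Agent.V8H16.RS.Main
import Pool.Agent.Y884.GR.MTall

/-!
# The Hardy-Littlewood function of the primes is unbounded

This follows from the theorem of Maynard and Tao.
-/

set_option autoImplicit false

namespace Pool.Agent.V8H16.RS

open Filter Finset

/-- The shifts `(i + 1) * (k + 1)!` are admissible. -/
theorem adm (k : ℕ) (q : ℕ) (hq : q.Prime) : ∃ n : ℕ, ¬ q ∣ n ∧
    ∀ i : Fin k, ¬ q ∣ 1 * n + ((i : ℕ) + 1) * (k + 1).factorial := by
  rcases Nat.lt_or_ge (k + 1) q with h | h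
  · -- one of the residues `1, …, k + 1`
    have : Fact q.Prime := ⟨hq⟩
    by_contra hcon
    push Not at hcon
    have h1 : ∀ m : Fin (k + 1), ∃ i : Fin k,
        q ∣ 1 * ((m : ℕ) + 1) + ((i : ℕ) + 1) * (k + 1).factorial := by
      intro m
      refine hcon ((m : ℕ) + 1) fun hd => ?_
      have := Nat.le_of_dvd (by omega) hd
      have := m.2
      omega
    choose g hg using h1
    obtain ⟨m, m', hne, he⟩ := Fintype.exists_ne_map_eq_of_card_lt g (by simp)
    have h2 := hg m
    have h3 := hg m'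
    rw [he] at h2
    have h4 : ((1 * ((m : ℕ) + 1) + ((g m' : ℕ) + 1) * (k + 1).factorial : ℕ) : ZMod q) = 0 :=
      (ZMod.natCast_eq_zero_iff _ _).2 h2
    have h5 : ((1 * ((m' : ℕ) + 1) + ((g m' : ℕ) + 1) * (k + 1).factorial : ℕ) : ZMod q) = 0 :=
      (ZMod.natCast_eq_zero_iff _ _).2 h3
    have h6 : (((m : ℕ) : ℕ) : ZMod q) = ((m' : ℕ) : ZMod q) := by
      push_cast at h4 h5
      linear_combination h4 - h5
    rw [ZMod.natCast_eq_natCast_iff] at h6
    have h7 := Nat.ModEq.eq_of_lt_of_lt h6 (by have := m.2; omega) (by have := m'.2; omega)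
    exact hne (Fin.ext h7)
  · refine ⟨1, fun hd => hq.one_lt.ne' (Nat.dvd_one.1 hd), fun i hd => ?_⟩
    have h1 : q ∣ ((i : ℕ) + 1) * (k + 1).factorial :=
      (Nat.dvd_factorial hq.pos h).mul_left _
    have h2 := (Nat.dvd_add_left h1).1 hd
    rw [one_mul] at h2
    exact hq.one_lt.ne' (Nat.dvd_one.1 h2)

/-- `rho` of the primes is unbounded. -/
theorem exists_rho (m : ℕ) : ∃ y, m ≤ rho Nat.Prime y := by
  obtain ⟨k, -, hMT⟩ := Pool.Agent.Y884.GR.maynardTaoAll (m + 1) (by omega)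
  set F := (k + 1).factorial with hF
  have hFpos : 0 < F := Nat.factorial_pos _
  obtain ⟨δ₀, hδ₀, h⟩ := hMT (fun _ => 1) (fun i => ((i : ℕ) + 1) * F) (fun _ => le_rfl)
    (fun i => Nat.mul_pos (by omega) hFpos) (fun i j hij => by
      rw [one_mul, one_mul]
      intro h
      have := Nat.eq_of_mul_eq_mul_right hFpos h
      exact hij (Fin.ext (by omega)))
    (fun q hq => adm k q hq)
  obtain ⟨x₀, hx⟩ := h (min δ₀ 1) (lt_min hδ₀ one_pos) (min_le_left _ _)
  refine ⟨(k + 1) * F, rho_ge ?_⟩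
  rw [frequently_atTop]
  intro X
  set x : ℝ := max (max x₀ 1) (((X : ℝ) + 1) ^ 2) with hxd
  have hx1 : 1 ≤ x := (le_max_right _ _).trans (le_max_left _ _)
  have h1 := hx x ((le_max_left _ _).trans (le_max_left _ _))
  have h2 : (X : ℝ) + 1 ≤ x ^ (1 - min δ₀ 1 / 2) := by
    calc (X : ℝ) + 1 = (((X : ℝ) + 1) ^ 2) ^ (1 / 2 : ℝ) := by
          rw [← Real.sqrt_eq_rpow, Real.sqrt_sq (by positivity)]
      _ ≤ x ^ (1 / 2 : ℝ) := by
          apply Real.rpow_le_rpow (by positivity) (le_max_right _ _) (by norm_num)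
      _ ≤ x ^ (1 - min δ₀ 1 / 2) := by
          apply Real.rpow_le_rpow_of_exponent_le hx1
          have := min_le_right δ₀ 1
          linarith
  by_contra hcon
  push Not at hcon
  have h3 := h2.trans h1
  have h4 : ∀ S : Finset ℕ, S ⊆ Ioc 0 X → (S.card : ℝ) < X + 1 := by
    intro S hS
    have h5 := card_le_card hS
    rw [Nat.card_Ioc] at h5
    have h6 : (S.card : ℝ) ≤ X := by exact_mod_cast h5
    linarith
  classical
  refine absurd h3 (not_le.2 (h4 _ fun n hn => ?_))
  simp only [mem_filter, mem_Icc] at hn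
  rw [mem_Ioc]
  refine ⟨hn.1.1, ?_⟩
  by_contra hnX
  have h5 := hcon n (by omega)
  rw [cnt_add] at h5
  have h6 : m + 1 + 1 ≤ ((Ioc n (n + (k + 1) * F)).filter Nat.Prime).card := by
    refine hn.2.2.trans
      (card_le_card_of_injOn (fun i : Fin k => 1 * n + ((i : ℕ) + 1) * F) ?_ ?_)
    · intro i hi
      rw [mem_coe, mem_filter] at hi
      rw [mem_coe, mem_filter, mem_Ioc]
      refine ⟨⟨?_, ?_⟩, hi.2⟩
      · have : 0 < ((i : ℕ) + 1) * F := Nat.mul_pos (by omega) hFpos
        change n < 1 * n + ((i : ℕ) + 1) * F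
        omega
      · have : ((i : ℕ) + 1) * F ≤ (k + 1) * F := Nat.mul_le_mul_right _ (by omega)
        change 1 * n + ((i : ℕ) + 1) * F ≤ n + (k + 1) * F
        omega
    · intro i _ j _ hij
      have h7 : ((i : ℕ) + 1) * F = ((j : ℕ) + 1) * F := by
        have : 1 * n + ((i : ℕ) + 1) * F = 1 * n + ((j : ℕ) + 1) * F := hij
        omega
      have := Nat.eq_of_mul_eq_mul_right hFpos h7
      exact Fin.ext (by omega)
  omega

/-- Every prime number divides only one prime number. -/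
theorem sieved_prime : Sieved Nat.Prime := fun q hq =>
  (Set.finite_singleton q).subset fun n hn => by
    have h1 := (Nat.prime_dvd_prime_iff_eq hq hn.1).1 hn.2
    exact h1.symm

end Pool.Agent.V8H16.RS
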